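import Pool.Agent.Z700.Defs3
import Pool.Agent.Z405.C1Ba

/-! # The character sum over the cusps for a given matrix of determinant `3 m`, general family -/

set_option autoImplicit false

namespace Pool.Agent.Z405.C1B

open Pool.Agent.Z701

theorem t_C1B : Pool.Agent.Z701.S_C1B := by
  intro P hP hne a a' X Y hdet
  refine gen (fun p hp => ?_) hdet
  rcases hP.1 p hp with h | h
  · exact ⟨h.1, by have := h.2.1; omega⟩
  · exact ⟨h.1, by have := h.2.1; omega⟩

end Pool.Agent.Z405.C1B
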